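import Mathlib
import Pool.Agent.L5helper13.TQ.Defs

set_option autoImplicit false

namespace Pool.Agent.L5helper13.TQ

open MvPolynomial

/-- TQ1: the mean on the span of the characters. -/
theorem exists_mean (k : Type) [Field k] (d : ℕ) :
    ∃ E : ((Fin d → kˣ) → k) →ₗ[k] k, E (fun _ => 1) = 1 ∧
      (∀ f ∈ AA k d, ∀ s, E (fun t => f (t * s)) = E f) ∧
      (∀ f ∈ AA k d, E (fun t => f t⁻¹) = E f) := by
  classical
  have hli : LinearIndependent k
      (fun (χ : (Fin d → kˣ) →* k) (t : Fin d → kˣ) => χ t) :=
    linearIndependent_monoidHom (Fin d → kˣ) k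
  obtain ⟨E, hE⟩ := LinearMap.exists_extend
    ((Finsupp.lapply (1 : (Fin d → kˣ) →* k)) ∘ₗ hli.repr)
  have hchar : ∀ χ : (Fin d → kˣ) →* k, E (fun t => χ t) = if χ = 1 then 1 else 0 := by
    intro χ
    have hm : (fun t : Fin d → kˣ => χ t) ∈ Submodule.span k
        (Set.range (fun (χ : (Fin d → kˣ) →* k) (t : Fin d → kˣ) => χ t)) :=
      Submodule.subset_span ⟨χ, rfl⟩
    have h1 := LinearMap.congr_fun hE ⟨_, hm⟩
    rw [LinearMap.comp_apply, LinearMap.comp_apply, hli.repr_eq_single χ ⟨_, hm⟩ rfl] at h1
    rw [Submodule.subtype_apply] at h1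
    rw [h1, Finsupp.lapply_apply, Finsupp.single_apply]
  refine ⟨E, ?_, ?_, ?_⟩
  · have h := hchar 1
    rw [if_pos rfl] at h
    exact h
  · intro f hf s
    induction hf using Submodule.span_induction with
    | mem x hx =>
      obtain ⟨χ, rfl⟩ := hx
      have e : (fun t : Fin d → kˣ => χ (t * s)) = χ s • (fun t : Fin d → kˣ => χ t) := by
        funext t
        rw [Pi.smul_apply, smul_eq_mul, map_mul, mul_comm]
      show E (fun t => χ (t * s)) = E (fun t => χ t)
      rw [e, map_smul, hchar χ, smul_eq_mul]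
      split_ifs with h
      · rw [h]; simp
      · simp
    | zero =>
      show E (fun t => (0 : k)) = E 0
      rfl
    | add x y _ _ hx hy =>
      have e : (fun t : Fin d → kˣ => (x + y) (t * s)) =
          (fun t => x (t * s)) + (fun t => y (t * s)) := rfl
      rw [e, map_add, map_add, hx, hy]
    | smul a x _ hx =>
      have e : (fun t : Fin d → kˣ => (a • x) (t * s)) = a • (fun t => x (t * s)) := rfl
      rw [e, map_smul, map_smul, hx]
  · intro f hf
    induction hf using Submodule.span_induction with
    | mem x hx =>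
      obtain ⟨χ, rfl⟩ := hx
      have h1 := hchar (χ.comp (invMonoidHom : (Fin d → kˣ) →* (Fin d → kˣ)))
      have h2 := hchar χ
      have e : χ.comp (invMonoidHom : (Fin d → kˣ) →* (Fin d → kˣ)) = 1 ↔ χ = 1 := by
        constructor
        · intro h
          refine MonoidHom.ext fun t => ?_
          have h3 := DFunLike.congr_fun h t⁻¹
          simpa using h3
        · intro h
          rw [h]
          refine MonoidHom.ext fun t => ?_
          simp
      show E (fun t => χ t⁻¹) = E (fun t => χ t)
      rw [h2]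
      have h4 : (fun t : Fin d → kˣ => χ t⁻¹) =
          fun t => χ.comp (invMonoidHom : (Fin d → kˣ) →* (Fin d → kˣ)) t := rfl
      rw [h4, h1]
      exact if_congr e rfl rfl
    | zero =>
      show E (fun t => (0 : k)) = E 0
      rfl
    | add x y _ _ hx hy =>
      have e : (fun t : Fin d → kˣ => (x + y) t⁻¹) =
          (fun t => x t⁻¹) + (fun t => y t⁻¹) := rfl
      rw [e, map_add, map_add, hx, hy]
    | smul a x _ hx =>
      have e : (fun t : Fin d → kˣ => (a • x) t⁻¹) = a • (fun t => x t⁻¹) := rfl
      rw [e, map_smul, map_smul, hx]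

end Pool.Agent.L5helper13.TQ
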